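import Pool.Agent.SPE.Defs

/-! Project SPE, module AllE: all reversed intervals are E-P-cuts. -/

set_option autoImplicit false

open Set

namespace Pool.Agent.SPE

open Pool.Agent.SOC Pool.Agent.SOD Pool.Agent.SOS Pool.Agent.SOP Pool.Agent.SOW Pool.Agent.SOE Pool.Agent.RUP

variable {V : Type} [DecidableEq V] {G : SimpleGraph V} {P : Set (Set V)} {s s' : List V} {T : V → V → V → V → Prop} {p q P₁ Q r : V}

theorem cen_RP (hG : PrimeG G) (h : Ctx G s s' T p q P₁ Q r) {X₁ X₂ : Set V} (h1 : IsPCut G X₁) (h2 : IsPCut G X₂)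
    (h12 : X₁ ⊆ X₂) (hp : p ∈ X₁) (hq : q ∈ X₁) (hP : P₁ ∉ X₂) (hQ : Q ∉ X₂)
    (hsw : ∀ v, v ∈ X₂ → v ∉ X₁ → SwR s s' p q P₁ Q v ∨ SwL s s' p q P₁ Q v) {z : V} (hz1 : z ∉ X₁) (hz2 : z ∈ X₂)
    (hz : SwR s s' p q P₁ Q z) : ∃ z L, Centre G z L ∧ (SwR s s' p q P₁ Q z ∨ SwL s s' p q P₁ Q z) := by
  by_cases hall : ∀ v, v ∈ X₂ → v ∉ X₁ → v = z
  · have he : X₂ = insert z X₁ := by
      ext v
      constructor
      · intro k
        by_cases k1 : v ∈ X₁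
        · exact Set.mem_insert_of_mem z k1
        · exact Or.inl (hall v k k1)
      · rintro (k | k)
        · exact k ▸ hz2
        · exact h12 k
    refine ⟨z, X₁, cen_aux hG h h1 h12 hp hq hP hQ hz1 hz2 (he ▸ h2) ?_, Or.inl hz⟩
    intro a ha b hb hbz hab
    have hb2 : b ∉ X₂ := fun k => hbz (hall b k hb)
    exact endp hG h h1 h2 h12 hp hq hP hQ (Or.inl hz) hz1 hz2 ha hb2 hab
  · push Not at hall
    obtain ⟨t, ht2, ht1, htz⟩ := hall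
    have ht : SwL s s' p q P₁ Q t := by
      rcases hsw t ht2 ht1 with k | k
      · exact absurd (uniqR hG h k hz).1 htz
      · exact k
    have hall : ∀ v, v ∈ X₂ → v ∉ X₁ → v = z ∨ v = t := by
      intro v k2 k1
      rcases hsw v k2 k1 with k | k
      · exact Or.inl (uniqR hG h k hz).1
      · exact Or.inr (uniqL hG h k ht).1
    have he : X₂ = insert z (insert t X₁) := by
      ext v
      constructor
      · intro k
        by_cases k1 : v ∈ X₁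
        · exact Set.mem_insert_of_mem z (Set.mem_insert_of_mem t k1)
        · rcases hall v k k1 with k' | k'
          · exact Or.inl k'
          · exact Or.inr (Or.inl k')
      · rintro (k | k | k)
        · exact k ▸ hz2
        · exact k ▸ ht2
        · exact h12 k
    rcases pair_cut hG h h1 hz ht (he ▸ h2) hp hq (fun k => hP (h12 k)) (fun k => hQ (h12 k)) hz1 ht1 with k | k
    · exact ⟨z, X₁, cen_pair hG h h1 h2 h12 hp hq hP hQ hz ht hz1 hz2 ht1 ht2 hall k (fun e => htz e.symm), Or.inl hz⟩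
    · exact ⟨t, X₁, cen_pair hG h.mir h1 h2 h12 hq hp hQ hP (z := t) (t := z) ht hz ht1 ht2 hz1 hz2
        (fun v k2 k1 => (hall v k2 k1).symm) k htz, Or.inr ht⟩

theorem cen_existsP (hG : PrimeG G) (h : Ctx G s s' T p q P₁ Q r) {X₁ X₂ : Set V} (h1 : IsPCut G X₁) (h2 : IsPCut G X₂)
    (h12 : X₁ ⊆ X₂) (hv : ∃ v, v ∈ X₂ ∧ v ∉ X₁) (hp : p ∈ X₁) (hq : q ∈ X₁) (hP : P₁ ∉ X₂) (hQ : Q ∉ X₂)
    (hsw : ∀ v, v ∈ X₂ → v ∉ X₁ → SwR s s' p q P₁ Q v ∨ SwL s s' p q P₁ Q v) : ∃ z L, Centre G z L ∧ (SwR s s' p q P₁ Q z ∨ SwL s s' p q P₁ Q z) := by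
  obtain ⟨z, hz2, hz1⟩ := hv
  rcases hsw z hz2 hz1 with k | k
  · exact cen_RP hG h h1 h2 h12 hp hq hP hQ hsw hz1 hz2 k
  · obtain ⟨z', L, h3, h4⟩ := cen_RP hG h.mir h1 h2 h12 hq hp hQ hP (fun v k2 k1 => (hsw v k2 k1).symm) hz1 hz2 k
    exact ⟨z', L, h3, h4.symm⟩



theorem all_epcP [Finite V] (hG : PrimeG G) (hc : PinC G P) (hs : IsEnum s) (hT : QT G (Cross s) T) (hpn : ∀ S ∈ P, CI s S) (hs' : EWP G P s')
    {L : List (Set V)} (hM : MinL s s' L) : ∀ X ∈ L, EPP G P X := by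
  intro X hX
  have hse : EWO G s := ewo_of_qt hs hT
  have hXs : SC s s' X := hM.rep.sc X hX
  have hconn := hG.1.preconnected
  refine ⟨⟨sc_cut hconn hse hs'.ewo hXs, ?_⟩, fun S hS => hXs.st S (hpn S hS) (hs'.pin S hS)⟩
  intro p₀ p₀' q₀ q₀' r hw₀ hsp
  obtain ⟨p, P₁, q, Q, hw, hp, hq, hP, hQ⟩ : ∃ p P₁ q Q, W4 G p P₁ q Q r ∧ p ∈ X ∧ q ∈ X ∧ P₁ ∉ X ∧ Q ∉ X := by
    obtain ⟨hs1, hs2⟩ := hsp
    by_cases k1 : p₀ ∈ X
    · have k1' : p₀' ∉ X := fun t => hs1 (iff_of_true k1 t)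
      by_cases k2 : q₀ ∈ X
      · have k2' : q₀' ∉ X := fun t => hs2 (iff_of_true k2 t)
        exact ⟨_, _, _, _, hw₀, k1, k2, k1', k2'⟩
      · have k2' : q₀' ∈ X := by
          by_contra t
          exact hs2 (iff_of_false k2 t)
        exact ⟨_, _, _, _, w4_swap' hw₀, k1, k2', k1', k2⟩
    · have k1' : p₀' ∈ X := by
        by_contra t
        exact hs1 (iff_of_false k1 t)
      by_cases k2 : q₀ ∈ X
      · have k2' : q₀' ∉ X := fun t => hs2 (iff_of_true k2 t)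
        exact ⟨_, _, _, _, w4_swap hw₀, k1', k2, k1, k2'⟩
      · have k2' : q₀' ∈ X := by
          by_contra t
          exact hs2 (iff_of_false k2 t)
        exact ⟨_, _, _, _, w4_swap (w4_swap' hw₀), k1', k2', k1, k2⟩
  have c := alle_cross hse hXs.ci hw hp hq hP hQ
  have c' := alle_cross hs'.ewo hXs.ci' hw hp hq hP hQ
  have hctx : Ctx G s s' T p q P₁ Q r := ⟨hs, hT, hs'.ewo, hw, c, c'⟩
  obtain ⟨X₁, X₂, s1, s2, h12, hv, hp1, hq1, hP2, hQ2, hf⟩ :=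
    two_sets hs hs'.ewo.enum hM hX hw.pq.ne hw.p'q'.ne hp hq hP hQ c c'
  obtain ⟨z, L', hz, hsw⟩ := cen_existsP hG hctx (sc_cut hconn hse hs'.ewo s1) (sc_cut hconn hse hs'.ewo s2) h12 hv hp1 hq1 hP2 hQ2
    (fun v hv1 hv2 => pos_sw hs hs'.ewo.enum hw.pq.ne hw.p'q'.ne c c' s1.ci s1.ci' s2.ci s2.ci' hp1 hq1 h12 hP2 hQ2 hv1 hv2
      (hf v hv1 hv2).1)
  rcases hsw with h | h
  · exact hc.sw s s' T _ _ _ _ _ _ _ hctx ⟨hse, hpn⟩ hs' h hz
  · exact hc.sw s s' T _ _ _ _ _ _ _ hctx.mir ⟨hse, hpn⟩ hs' h hz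


end Pool.Agent.SPE
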