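import Pool.Agent.SPE.Defs

/-! Project SPE, module Blocks: unions of blocks of an E-P-cut (relative to the pins) are E-P-cuts. -/

set_option autoImplicit false

open Set

namespace Pool.Agent.SPE

open Pool.Agent.SOC Pool.Agent.SOD Pool.Agent.SOS Pool.Agent.SOP Pool.Agent.SOW Pool.Agent.SOE Pool.Agent.RUP

variable {V : Type} [DecidableEq V] {G : SimpleGraph V} {P : Set (Set V)} {s s' : List V}

/-- two elements of an interval which contains no element of the other side of `X` are in one block -/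
theorem blk_of_int (hs : IsEnum s) {X S : Set V} (hS : CI s S) {a c : V} (ha : a ∈ S) (hc : c ∈ S) (hac : a ∈ X ↔ c ∈ X)
    (h : ∀ y, (y ∈ X ↔ a ∉ X) → y ∉ S) : Blk s X a c := by
  refine ⟨hac, fun y y' h1 h2 => ?_⟩
  have n1 := h y h1
  have n2 := h y' h2
  have ne : ∀ u v, u ∈ S → v ∉ S → u ≠ v := fun u v hu hv e => hv (e ▸ hu)
  rw [not_cross_iff hs (ne a y ha n1) (ne a y' ha n2) (ne c y hc n1) (ne c y' hc n2)]
  exact hS a ha c hc y n1 y' n2

/-- a union of blocks of `X` does not cross an interval which `X` does not cross -/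
theorem blocks_nc (hs : IsEnum s) {X S : Set V} (hS : CI s S) (hX : ¬ Crossing X S) {U : Set V}
    (hU : ∀ x z, Blk s X x z → x ∈ U → z ∈ U) : ¬ Crossing U S := by
  rintro ⟨⟨a, aU, aS⟩, ⟨b, bU, bS⟩, ⟨c, cU, cS⟩, ⟨d, dU, dS⟩⟩
  have hSc : CI s Sᶜ := IsSplit.compl (ordFn_skew hs) hS
  have hcase : (∀ p, p ∈ X → p ∉ S) ∨ (∀ p, p ∈ X → p ∈ S) ∨ (∀ p, p ∉ X → p ∉ S) ∨ (∀ p, p ∉ X → p ∈ S) := by
    by_contra hcon
    push Not at hcon
    exact hX hcon
  rcases hcase with h | h | h | h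
  · refine cU (hU a c (blk_of_int hs hS aS cS ?_ ?_) aU)
    · exact iff_of_false (fun k => h a k aS) (fun k => h c k cS)
    · intro y hy
      exact h y (hy.2 fun k => h a k aS)
  · refine dU (hU b d (blk_of_int hs hSc bS dS ?_ ?_) bU)
    · exact iff_of_false (fun k => bS (h b k)) (fun k => dS (h d k))
    · intro y hy hy'
      exact hy' (h y (hy.2 fun k => bS (h b k)))
  · have aX : a ∈ X := by
      by_contra k
      exact h a k aS
    have cX : c ∈ X := by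
      by_contra k
      exact h c k cS
    refine cU (hU a c (blk_of_int hs hS aS cS (iff_of_true aX cX) ?_) aU)
    intro y hy
    exact h y fun k => hy.1 k aX
  · have bX : b ∈ X := by
      by_contra k
      exact bS (h b k)
    have dX : d ∈ X := by
      by_contra k
      exact dS (h d k)
    refine dU (hU b d (blk_of_int hs hSc bS dS (iff_of_true bX dX) ?_) bU)
    intro y hy hy'
    exact hy' (h y fun k => hy.1 k bX)

/-- the sum of an interval order and an E-P-cut which does not cross the pin -/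
theorem split_sum {X S : Set V} (hS : CI s S) (hX : ¬ Crossing X S) :
    IsSplit (fun x y => ordFn s x y + cutSum [X] x y) S := by
  intro x hx x' hx' y hy y' hy'
  have h1 : sep (fun x y => ordFn s x y + cutSum [X] x y) x x' y y' = sep (ordFn s) x x' y y' + spv X x x' y y' := by
    rw [← corner_sep]
    unfold sep
    ring
  rw [h1, hS x hx x' hx' y hy y' hy', zero_add]
  unfold spv
  refine if_neg ?_
  rintro ⟨k1, k2⟩
  apply hX
  by_cases q1 : x ∈ X <;> by_cases q2 : y ∈ X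
  · have q1' : x' ∉ X := fun k => k1 (iff_of_true q1 k)
    have q2' : y' ∉ X := fun k => k2 (iff_of_true q2 k)
    exact ⟨⟨x, q1, hx⟩, ⟨y, q2, hy⟩, ⟨x', q1', hx'⟩, ⟨y', q2', hy'⟩⟩
  · have q1' : x' ∉ X := fun k => k1 (iff_of_true q1 k)
    have q2' : y' ∈ X := by
      by_contra k
      exact k2 (iff_of_false q2 k)
    exact ⟨⟨x, q1, hx⟩, ⟨y', q2', hy'⟩, ⟨x', q1', hx'⟩, ⟨y, q2, hy⟩⟩
  · have q1' : x' ∈ X := by
      by_contra k
      exact k1 (iff_of_false q1 k)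
    have q2' : y' ∉ X := fun k => k2 (iff_of_true q2 k)
    exact ⟨⟨x', q1', hx'⟩, ⟨y, q2, hy⟩, ⟨x, q1, hx⟩, ⟨y', q2', hy'⟩⟩
  · have q1' : x' ∈ X := by
      by_contra k
      exact k1 (iff_of_false q1 k)
    have q2' : y' ∈ X := by
      by_contra k
      exact k2 (iff_of_false q2 k)
    exact ⟨⟨x', q1', hx'⟩, ⟨y', q2', hy'⟩, ⟨x, q1, hx⟩, ⟨y, q2, hy⟩⟩

theorem blk_pairP [Finite V] (hG : PrimeG G) (hc : PinC G P) (hs : EWP G P s) {X : Set V} (hX : EPP G P X) {a b c d : V}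
    (h : Rigid G a b c d ∨ ∃ r, W4 G a b c d r) : Blk s X a b ∨ Blk s X c d := by
  have hsk := ordFn_skew hs.ewo.enum
  have hn : ¬ Spl X a b c d := by
    rcases h with h | ⟨r, h⟩
    · exact corner_spl hX.epc.cut h
    · exact hX.epc.w4 h
  by_cases hci : CI s X
  · have blkOf : ∀ x z : V, (x ∈ X ↔ z ∈ X) → Blk s X x z := by
      intro x z hxz
      refine ⟨hxz, fun y y' h1 h2 => ?_⟩
      have h1' : (y ∈ X ↔ z ∉ X) := by rw [← hxz]; exact h1
      have h2' : (y' ∈ X ↔ z ∉ X) := by rw [← hxz]; exact h2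
      rw [not_cross_iff hs.ewo.enum (strong_ne h1) (strong_ne h2) (strong_ne h1') (strong_ne h2')]
      by_cases hx : x ∈ X
      · exact hci x hx z (hxz.1 hx) y (fun t => h1.1 t hx) y' (fun t => h2.1 t hx)
      · exact (IsSplit.compl hsk hci) x hx z (fun t => hx (hxz.2 t)) y (fun t => t (h1.2 hx)) y' (fun t => t (h2.2 hx))
    by_cases h1 : (a ∈ X ↔ b ∈ X)
    · exact Or.inl (blkOf a b h1)
    · by_cases h2 : (c ∈ X ↔ d ∈ X)
      · exact Or.inr (blkOf c d h2)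
      · exact absurd ⟨h1, h2⟩ hn
  · obtain ⟨w, hwdef⟩ : ∃ w : V → V → ZMod 2, w = fun x y => ordFn s x y + cutSum [X] x y := ⟨_, rfl⟩
    have hsep : ∀ x y z t : V, sep w x y z t = sep (ordFn s) x y z t + spv X x y z t := by
      intro x y z t
      rw [← corner_sep, hwdef]
      unfold sep
      ring
    have hsym : ∀ x y : V, cutSum [X] x y = cutSum [X] y x := by
      intro x y
      unfold cutSum
      congr 2
      funext Y
      by_cases h1 : x ∈ Y <;> by_cases h2 : y ∈ Y <;> simp [h1, h2]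
    have hw : Skew 1 w := by
      intro x y hxy
      have e1 := hsk x y hxy
      have e2 : ∀ t : ZMod 2, t + t = 0 := by decide
      have e3 : w x y + w y x = (ordFn s x y + ordFn s y x) + (cutSum [X] x y + cutSum [X] y x) := by
        rw [hwdef]
        ring
      rw [e3, e1, hsym x y, e2, add_zero]
    have hsol : IsSol G w := by
      intro x y z t hr
      have h1 := (isWO_iff hs.ewo.enum).1 hs.ewo.wo x y z t hr
      have h2 := ind_sol hX.epc.cut x y z t hr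
      rw [hsep, h1, ← corner_sep, h2, add_zero]
    have h4 : ∀ p p' q q' r, W4 G p p' q q' r → sep w p p' q q' = 0 := by
      intro p p' q q' r h5
      have h1 := (not_cross_iff hs.ewo.enum h5.pq.ne h5.pq'.ne h5.p'q.ne h5.p'q'.ne).1 (hs.ewo.w4 h5)
      have h2 : spv X p p' q q' = 0 := by
        unfold spv
        rw [if_neg (hX.epc.w4 h5)]
      rw [hsep, h1, h2, add_zero]
    have hF : Fam G (fun _ : Unit => w) :=
      ⟨fun _ => ⟨1, hw⟩, fun _ => hsol, fun {p p' q q' r} h5 _ => h4 p p' q q' r h5⟩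
    have hP : ∀ S ∈ P, CSpl (fun _ : Unit => w) S := by
      intro S hS _
      show IsSplit w S
      rw [hwdef]
      exact split_sum (hs.pin S hS) (hX.pin S hS)
    have hZ : ∃ Z : Set V, a ∈ Z ∧ b ∈ Z ∧ c ∉ Z ∧ d ∉ Z ∧ IsSplit w Z := by
      rcases h with h | ⟨r, h⟩
      · exact thmA hG.1.preconnected hsol h
      · exact aplus2 hG hw hsol h4 (hc.hf _ _ hF hP) h
    obtain ⟨Z, ha, hb, hc', hd, hZs⟩ := hZ
    rw [hwdef] at hZs
    rcases split_block hs.ewo.enum hci hZs with h1 | h1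
    · exact Or.inl (h1 a ha b hb)
    · exact Or.inr (h1 c hc' d hd)

theorem epp_blocks [Finite V] (hG : PrimeG G) (hc : PinC G P) (hs : EWP G P s) {X : Set V} (hX : EPP G P X) (hn : Nontriv X) {U : Set V}
    (hU : ∀ x z, Blk s X x z → x ∈ U → z ∈ U) : EPP G P U := by
  refine ⟨⟨pcut_blocks hG hs.ewo.enum hs.ewo.wo hX.epc.cut hn hU, ?_⟩, fun S hS => blocks_nc hs.ewo.enum (hs.pin S hS) (hX.pin S hS) hU⟩
  intro p p' q q' r hw hsp
  have hsy : ∀ {x z : V}, Blk s X x z → (x ∈ U ↔ z ∈ U) := fun h => ⟨hU _ _ h, hU _ _ (blk_symm hs.ewo.enum h)⟩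
  rcases blk_pairP hG hc hs hX (Or.inr ⟨r, hw⟩) with h | h
  · exact hsp.1 (hsy h)
  · exact hsp.2 (hsy h)

/-- the interval of the blocks -/
theorem gathP [Finite V] (hG : PrimeG G) (hc : PinC G P) (hs : EWP G P s) {X : Set V} (hX : EPP G P X) (hn : Nontriv X) :
    ∃ s₂, EWP G P s₂ ∧ CI s₂ X ∧ (∀ Y, CI s Y → ¬ Crossing X Y → CI s₂ Y) ∧
      ∀ a b c d, a ≠ c → a ≠ d → b ≠ c → b ≠ d → (Blk s X a b ∨ Blk s X c d) →
        sep (ordFn s₂) a b c d = sep (ordFn s) a b c d := by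
  have hE := hs.ewo.enum
  obtain ⟨s₁, g1, g2, g3, g4⟩ := gath_rot hE hn
  have hwo : IsWO G s₁ := by
    rw [isWO_iff g1]
    intro a b c d hr
    rw [g2 a b c d hr.ac hr.ad hr.bc hr.bd]
    exact (isWO_iff hE).1 hs.ewo.wo a b c d hr
  have hblk : ∀ {x z : V}, Blk s X x z → Blk s₁ X x z := by
    intro x z h
    refine ⟨h.1, fun y y' h1 h2 => ?_⟩
    have h1' : (y ∈ X ↔ z ∉ X) := by rw [← h.1]; exact h1
    have h2' : (y' ∈ X ↔ z ∉ X) := by rw [← h.1]; exact h2
    rw [not_cross_iff g1 (strong_ne h1) (strong_ne h2) (strong_ne h1') (strong_ne h2'),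
      g2 _ _ _ _ (strong_ne h1) (strong_ne h2) (strong_ne h1') (strong_ne h2'),
      ← not_cross_iff hE (strong_ne h1) (strong_ne h2) (strong_ne h1') (strong_ne h2')]
    exact h.2 y y' h1 h2
  have hci : ∀ Y, CI s Y → CI s₁ Y := by
    intro Y hY x hx x' hx' y hy y' hy'
    rw [g2 x x' y y' (gather_ne hx hy) (gather_ne hx hy') (gather_ne hx' hy) (gather_ne hx' hy')]
    exact hY x hx x' hx' y hy y' hy'
  have hga := gather hG g1 hwo hX.epc.cut hn g3 g4
  change IsEnum (gatherL s₁ X) ∧ IsWO G (gatherL s₁ X) ∧ CI (gatherL s₁ X) X ∧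
    ∀ Y, CI s₁ Y → ¬ Crossing X Y → CI (gatherL s₁ X) Y at hga
  obtain ⟨k1, k2, k3, k4⟩ := hga
  have hsep : ∀ a b c d, a ≠ c → a ≠ d → b ≠ c → b ≠ d → (Blk s X a b ∨ Blk s X c d) →
      sep (ordFn (gatherL s₁ X)) a b c d = sep (ordFn s) a b c d := by
    intro a b c d h1 h2 h3 h4 h5
    rw [← g2 a b c d h1 h2 h3 h4]
    rcases h5 with h5 | h5
    · exact gather_l_sep g1 g3 g4 (hblk h5) h1 h2 h3 h4
    · exact gather_l_sep' g1 g3 g4 (hblk h5) h1 h2 h3 h4
  refine ⟨gatherL s₁ X, ⟨⟨k1, k2, ?_⟩, ?_⟩, k3, fun Y hY hcr => k4 Y (hci Y hY) hcr, hsep⟩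
  · intro p p' q q' r hw
    rw [not_cross_iff k1 hw.pq.ne hw.pq'.ne hw.p'q.ne hw.p'q'.ne,
      hsep p p' q q' hw.pq.ne hw.pq'.ne hw.p'q.ne hw.p'q'.ne (blk_pairP hG hc hs hX (Or.inr ⟨r, hw⟩)),
      ← not_cross_iff hE hw.pq.ne hw.pq'.ne hw.p'q.ne hw.p'q'.ne]
    exact hs.ewo.w4 hw
  · intro S hS
    exact k4 S (hci S (hs.pin S hS)) (hX.pin S hS)

/-- reversing an E-P-cut which is an interval -/
theorem corn_flipP (hs : EWP G P s) {X : Set V} (hX : EPP G P X) (hci : CI s X) :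
    ∃ s₂, EWP G P s₂ ∧ ∀ a b c d, a ≠ c → a ≠ d → b ≠ c → b ≠ d →
      sep (ordFn s₂) a b c d = sep (ordFn s) a b c d + spv X a b c d := by
  obtain ⟨s₂, h1, h2⟩ := Corn_flip hs.ewo hX.epc hci
  refine ⟨s₂, ⟨h1, ?_⟩, h2⟩
  intro S hS x hx x' hx' y hy y' hy'
  have ne : ∀ u v, u ∈ S → v ∉ S → u ≠ v := fun u v hu hv e => hv (e ▸ hu)
  rw [h2 x x' y y' (ne _ _ hx hy) (ne _ _ hx hy') (ne _ _ hx' hy) (ne _ _ hx' hy')]
  have h3 := split_sum (hs.pin S hS) (hX.pin S hS) x hx x' hx' y hy y' hy'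
  rw [← h3, ← corner_sep]
  unfold sep
  ring

end Pool.Agent.SPE
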