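import Pool.Agent.SPE.Blocks

/-! Project SPE, module Corn: corners and symmetric differences of crossing E-P-cuts (relative to the pins). -/

set_option autoImplicit false

open Set

namespace Pool.Agent.SPE

open Pool.Agent.SOC Pool.Agent.SOD Pool.Agent.SOS Pool.Agent.SOP Pool.Agent.SOW Pool.Agent.SOE Pool.Agent.RUP

variable {V : Type} [DecidableEq V] {G : SimpleGraph V} {P : Set (Set V)} {s s' : List V}

omit [DecidableEq V] in
theorem corn_ncI {X Y S : Set V} (hX : ¬ Crossing X S) (hY : ¬ Crossing Y S) (hcr : Crossing X Y) : ¬ Crossing (X ∩ Y) S := by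
  rintro ⟨⟨a, aU, aS⟩, ⟨b, bU, bS⟩, ⟨c, cU, cS⟩, ⟨d, dU, dS⟩⟩
  obtain ⟨-, -, -, e, eX, eY⟩ := hcr
  have h1 : ∀ x, x ∉ X → x ∉ S → False ∨ ∀ y, y ∉ X → y ∉ S := by
    intro x hx hx'
    right
    intro y hy hy'
    exact hX ⟨⟨a, aU.1, aS⟩, ⟨b, bU.1, bS⟩, ⟨y, hy, hy'⟩, ⟨x, hx, hx'⟩⟩
  have h2 : ∀ x, x ∉ Y → x ∉ S → False ∨ ∀ y, y ∉ Y → y ∉ S := by
    intro x hx hx'
    right
    intro y hy hy'
    exact hY ⟨⟨a, aU.2, aS⟩, ⟨b, bU.2, bS⟩, ⟨y, hy, hy'⟩, ⟨x, hx, hx'⟩⟩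
  have k1 : (∀ y, y ∉ X → y ∉ S) ∨ ∀ y, y ∉ X → y ∈ S := by
    by_cases h : ∃ x, x ∉ X ∧ x ∉ S
    · obtain ⟨x, hx, hx'⟩ := h
      exact Or.inl ((h1 x hx hx').resolve_left id)
    · right
      intro y hy
      by_contra h'
      exact h ⟨y, hy, h'⟩
  have k2 : (∀ y, y ∉ Y → y ∉ S) ∨ ∀ y, y ∉ Y → y ∈ S := by
    by_cases h : ∃ x, x ∉ Y ∧ x ∉ S
    · obtain ⟨x, hx, hx'⟩ := h
      exact Or.inl ((h2 x hx hx').resolve_left id)
    · right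
      intro y hy
      by_contra h'
      exact h ⟨y, hy, h'⟩
  rcases k1 with k1 | k1
  · rcases k2 with k2 | k2
    · by_cases hc : c ∈ X
      · exact k2 c (fun h => cU ⟨hc, h⟩) cS
      · exact k1 c hc cS
    · exact k1 e eX (k2 e eY)
  · rcases k2 with k2 | k2
    · exact k2 e eY (k1 e eX)
    · by_cases hd : d ∈ X
      · exact dS (k2 d (fun h => dU ⟨hd, h⟩))
      · exact dS (k1 d hd)

omit [DecidableEq V] in
theorem corn_ncC {X S : Set V} (h : ¬ Crossing X S) : ¬ Crossing Xᶜ S :=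
  fun hc => h (crossing_comm.1 (crossing_compl.1 (crossing_comm.1 hc)))

omit [DecidableEq V] in
theorem corn_ncS {X Y S : Set V} (hX : ¬ Crossing X S) (hY : ¬ Crossing Y S) (hcr : Crossing X Y) :
    ¬ Crossing {v | ¬ (v ∈ X ↔ v ∈ Y)} S := by
  rintro ⟨⟨a, aU, aS⟩, ⟨b, bU, bS⟩, ⟨c, cU, cS⟩, ⟨d, dU, dS⟩⟩
  have aU' : ¬ (a ∈ X ↔ a ∈ Y) := aU
  have bU' : ¬ (b ∈ X ↔ b ∈ Y) := bU
  have cU' : c ∈ X ↔ c ∈ Y := by
    by_contra h
    exact cU h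
  have dU' : d ∈ X ↔ d ∈ Y := by
    by_contra h
    exact dU h
  have key : ∀ Z : Set V, ¬ Crossing Z S → ((∀ p, p ∈ Z → p ∉ S) ∨ (∀ p, p ∉ Z → p ∉ S)) ∨ ((∀ p, p ∈ Z → p ∈ S) ∨ (∀ p, p ∉ Z → p ∈ S)) := by
    intro Z hZ
    by_contra hcon
    push Not at hcon
    exact hZ ⟨hcon.1.1, hcon.2.1, hcon.1.2, hcon.2.2⟩
  obtain ⟨⟨e, e1, e2⟩, ⟨f, f1, f2⟩, ⟨g, g1, g2⟩, ⟨k, k1, k2⟩⟩ := hcr
  rcases key X hX with (h | h) | (h | h) <;> rcases key Y hY with (h' | h') | (h' | h')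
  · have := h a; have := h' a; have := h c; have := h' c; tauto
  · have := h a; have := h' a; have := h c; have := h' c; tauto
  · exact h e e1 (h' e e2)
  · exact h f f1 (h' f f2)
  · have := h a; have := h' a; have := h c; have := h' c; tauto
  · have := h a; have := h' a; have := h c; have := h' c; tauto
  · exact h g g1 (h' g g2)
  · exact h k k1 (h' k k2)
  · exact h' e e2 (h e e1)
  · exact h' f f2 (h f f1)
  · have := h b; have := h' b; have := h d; have := h' d; tauto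
  · have := h b; have := h' b; have := h d; have := h' d; tauto
  · exact h' g g2 (h g g1)
  · exact h' k k2 (h k k1)
  · have := h b; have := h' b; have := h d; have := h' d; tauto
  · have := h b; have := h' b; have := h d; have := h' d; tauto

theorem corn_coreP [Finite V] (hG : PrimeG G) (hc : PinC G P) (hs : EWP G P s) {X Y : Set V} (hX : EPP G P X) (hY : EPP G P Y)
    (hcr : Crossing X Y) {p p' q q' r : V} (hw : W4 G p p' q q' r) (hpY : p ∈ Y) (hp'Y : p' ∉ Y)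
    (hqX : q ∈ X) (hqY : q ∈ Y) (hq'X : q' ∉ X) (hq'Y : q' ∈ Y) : False := by
  obtain ⟨⟨c1, c1X, c1Y⟩, ⟨u, huX, huY⟩, ⟨c3, c3X, c3Y⟩, ⟨v, hvX, hvY⟩⟩ := hcr
  have hn : Nontriv X := ⟨⟨c1, c1X, u, huX, Corn_ne c1Y huY⟩, ⟨c3, c3X, v, hvX, Corn_ne c3Y hvY⟩⟩
  obtain ⟨s₁, h1, hci, -, -⟩ := gathP hG hc hs hX hn
  obtain ⟨s₂, h2, hsep⟩ := corn_flipP h1 hX hci
  have key : ∀ t : List V, EWP G P t → sep (ordFn t) q q' u v = 0 := by
    intro t ht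
    rcases blk_pairP hG hc ht hY (Or.inr ⟨r, hw⟩) with hb | hb
    · exact absurd (hb.1.1 hpY) hp'Y
    · have hu : u ∈ Y ↔ q ∉ Y := ⟨fun k => absurd k huY, fun k => absurd hqY k⟩
      have hv : v ∈ Y ↔ q ∉ Y := ⟨fun k => absurd k hvY, fun k => absurd hqY k⟩
      exact (not_cross_iff ht.ewo.enum (Corn_ne hqY huY) (Corn_ne hqY hvY) (Corn_ne hq'Y huY) (Corn_ne hq'Y hvY)).1 (hb.2 u v hu hv)
  have e1 := key s₁ h1
  have e2 := key s₂ h2
  rw [hsep q q' u v (Corn_ne hqY huY) (Corn_ne hqY hvY) (Corn_ne hq'Y huY) (Corn_ne hq'Y hvY), e1, zero_add] at e2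
  unfold spv at e2
  rw [if_pos ⟨fun k => hq'X (k.1 hqX), fun k => hvX (k.1 huX)⟩] at e2
  exact absurd e2 (by decide)

theorem corn_core2P [Finite V] (hG : PrimeG G) (hc : PinC G P) (hs : EWP G P s) {X Y : Set V} (hX : EPP G P X) (hY : EPP G P Y)
    (hcr : Crossing X Y) {p p' q q' r : V} (hw : W4 G p p' q q' r) (hp : p ∈ X ∩ Y) (hp' : p' ∉ X ∩ Y)
    (hq : q ∈ X ∩ Y) (hq' : q' ∉ X ∩ Y) : False := by
  have hpX := hp.1
  have hpY := hp.2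
  have hqX := hq.1
  have hqY := hq.2
  have a1 : p' ∈ X ∨ q' ∈ X := by
    by_contra k
    rw [not_or] at k
    exact hX.epc.w4 hw ⟨fun e => k.1 (e.1 hpX), fun e => k.2 (e.1 hqX)⟩
  have a2 : p' ∈ Y ∨ q' ∈ Y := by
    by_contra k
    rw [not_or] at k
    exact hY.epc.w4 hw ⟨fun e => k.1 (e.1 hpY), fun e => k.2 (e.1 hqY)⟩
  rcases a1 with b1 | b1
  · have b2 : p' ∉ Y := fun k => hp' ⟨b1, k⟩
    have b3 : q' ∈ Y := a2.resolve_left b2
    have b4 : q' ∉ X := fun k => hq' ⟨k, b3⟩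
    exact corn_coreP hG hc hs hX hY hcr hw hpY b2 hqX hqY b4 b3
  · have b2 : q' ∉ Y := fun k => hq' ⟨b1, k⟩
    have b3 : p' ∈ Y := a2.resolve_right b2
    have b4 : p' ∉ X := fun k => hp' ⟨k, b3⟩
    exact corn_coreP hG hc hs hX hY hcr (w4_comm hw) hqY b2 hpX hpY b4 b3

theorem epp_inter [Finite V] (hG : PrimeG G) (hc : PinC G P) (hs : EWP G P s) {X Y : Set V} (hX : EPP G P X) (hY : EPP G P Y)
    (hcr : Crossing X Y) : EPP G P (X ∩ Y) := by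
  refine ⟨⟨pcut_inter hG.1.preconnected hX.epc.cut hY.epc.cut hcr, ?_⟩, fun S hS => corn_ncI (hX.pin S hS) (hY.pin S hS) hcr⟩
  rintro p p' q q' r hw ⟨h1, h2⟩
  by_cases hp : p ∈ X ∩ Y
  · have hp' : p' ∉ X ∩ Y := fun k => h1 ⟨fun _ => k, fun _ => hp⟩
    by_cases hq : q ∈ X ∩ Y
    · have hq' : q' ∉ X ∩ Y := fun k => h2 ⟨fun _ => k, fun _ => hq⟩
      exact corn_core2P hG hc hs hX hY hcr hw hp hp' hq hq'
    · have hq' : q' ∈ X ∩ Y := by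
        by_contra k
        exact h2 ⟨fun t => absurd t hq, fun t => absurd t k⟩
      exact corn_core2P hG hc hs hX hY hcr (w4_swap' hw) hp hp' hq' hq
  · have hp' : p' ∈ X ∩ Y := by
      by_contra k
      exact h1 ⟨fun t => absurd t hp, fun t => absurd t k⟩
    by_cases hq : q ∈ X ∩ Y
    · have hq' : q' ∉ X ∩ Y := fun k => h2 ⟨fun _ => k, fun _ => hq⟩
      exact corn_core2P hG hc hs hX hY hcr (w4_swap hw) hp' hp hq hq'
    · have hq' : q' ∈ X ∩ Y := by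
        by_contra k
        exact h2 ⟨fun t => absurd t hq, fun t => absurd t k⟩
      exact corn_core2P hG hc hs hX hY hcr (w4_swap (w4_swap' hw)) hp' hp hq' hq

theorem epp_symm [Finite V] (hG : PrimeG G) (hc : PinC G P) (hs : EWP G P s) {X Y : Set V} (hX : EPP G P X) (hY : EPP G P Y)
    (hcr : Crossing X Y) : EPP G P {v | ¬ (v ∈ X ↔ v ∈ Y)} := by
  have hcr2 : Crossing X Yᶜ := crossing_compl.2 hcr
  have hcr3 : Crossing Xᶜ Y := crossing_comm.1 (crossing_compl.2 (crossing_comm.1 hcr))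
  have hcr4 : Crossing Xᶜ Yᶜ := crossing_compl.2 hcr3
  have e1 := epp_inter hG hc hs hX hY hcr
  have e2 := epp_inter hG hc hs hX.compl hY hcr3
  have e3 := epp_inter hG hc hs hX hY.compl hcr2
  have e4 := epp_inter hG hc hs hX.compl hY.compl hcr4
  refine ⟨⟨pcut_compl (pcut_symmDiff hG.1.preconnected hX.epc.cut hY.epc.cut hcr), ?_⟩, fun S hS => corn_ncS (hX.pin S hS) (hY.pin S hS) hcr⟩
  rintro p p' q q' r hw ⟨h1, h2⟩
  have h1' : ¬ ((p ∈ X ↔ p ∈ Y) ↔ (p' ∈ X ↔ p' ∈ Y)) := fun e => h1 (not_iff_not.2 e)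
  have h2' : ¬ ((q ∈ X ↔ q ∈ Y) ↔ (q' ∈ X ↔ q' ∈ Y)) := fun e => h2 (not_iff_not.2 e)
  by_cases k1 : p ∈ X ↔ p' ∈ X
  · have k2 : ¬ (p ∈ Y ↔ p' ∈ Y) := fun e => h1' (iff_congr k1 e)
    have k3 : q ∈ Y ↔ q' ∈ Y := by
      by_contra k
      exact hY.epc.w4 hw ⟨k2, k⟩
    have k4 : ¬ (q ∈ X ↔ q' ∈ X) := fun e => h2' (iff_congr e k3)
    exact Corn_key4 e1.epc e2.epc e3.epc e4.epc hw k1 k3 k2 k4
  · have k2 : q ∈ X ↔ q' ∈ X := by
      by_contra k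
      exact hX.epc.w4 hw ⟨k1, k⟩
    have k3 : ¬ (q ∈ Y ↔ q' ∈ Y) := fun e => h2' (iff_congr k2 e)
    have k4 : p ∈ Y ↔ p' ∈ Y := by
      by_contra k
      exact hY.epc.w4 hw ⟨k, k3⟩
    exact Corn_key4 e1.epc e2.epc e3.epc e4.epc (w4_comm hw) k2 k4 k3 k1


end Pool.Agent.SPE
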