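import Pool.Agent.SOE.Uniq
import Pool.Agent.SOE.NodeT
import Pool.Agent.SOE.TreeI
import Pool.Agent.SOE.EPoly

/-! Project SPE (MP_66ba69_lc, the theory of SOE relative to pins), module Defs.

A family `P` of sets (pins), every one of which has to be an interval. `PinC G P`: the conditions on the pins which replace the absence of centres.
For pairs `z a` with `z` a centre see `pinC_pairs` in SPE/Pin. -/

set_option autoImplicit false

open Set

namespace Pool.Agent.SPE

open Pool.Agent.SOC Pool.Agent.SOD Pool.Agent.SOS Pool.Agent.SOP Pool.Agent.SOW Pool.Agent.SOE Pool.Agent.RUP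

variable {V ι : Type}

/-- E-WO orders in which all pins are intervals -/
structure EWP [DecidableEq V] (G : SimpleGraph V) (P : Set (Set V)) (s : List V) : Prop where
  ewo : EWO G s
  pin : ∀ S ∈ P, CI s S

/-- E-P-cuts which cross no pin -/
structure EPP (G : SimpleGraph V) (P : Set (Set V)) (X : Set V) : Prop where
  epc : EPC G X
  pin : ∀ S ∈ P, ¬ Crossing X S

/-- strong relative to the pins -/
structure StrP (G : SimpleGraph V) (P : Set (Set V)) (X : Set V) : Prop where
  epp : EPP G P X
  nt : Nontriv X
  st : ∀ Y, EPP G P Y → ¬ Crossing X Y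

/-- conditions on the pins -/
structure PinC [DecidableEq V] (G : SimpleGraph V) (P : Set (Set V)) : Prop where
  hf : ∀ (ι : Type) (w : ι → V → V → ZMod 2), Fam G w → (∀ S ∈ P, CSpl w S) → HFree G w
  sw : ∀ (s s' : List V) (T : V → V → V → V → Prop) (p q Q' R r z : V) (L : Set V), Ctx G s s' T p q Q' R r → EWP G P s → EWP G P s' →
    SwR s s' p q Q' R z → ¬ Centre G z L

/-- partition of the vertices at a node of the tree of the strong E-P-cuts relative to the pins -/
structure NodeP (G : SimpleGraph V) (P : Set (Set V)) (π : V → Set V) : Prop where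
  part : ∀ v, (∀ u, π u = π v → u = v) ∨ StrP G P {u | π u = π v}
  max : ∀ X, StrP G P X → (∃ v, ∀ x ∈ X, π x = π v) ∨ (∃ v, ∀ x, x ∉ X → π x = π v)

variable {G : SimpleGraph V} {P : Set (Set V)}

theorem EPP.compl {X : Set V} (h : EPP G P X) : EPP G P Xᶜ :=
  ⟨h.epc.compl, fun S hS hc => h.pin S hS (crossing_comm.1 (crossing_compl.1 (crossing_comm.1 hc)))⟩

theorem StrP.compl {X : Set V} (h : StrP G P X) : StrP G P Xᶜ :=
  ⟨h.epp.compl, nontriv_compl.2 h.nt, fun Y hY hc => h.st Y hY (crossing_comm.1 (crossing_compl.1 (crossing_comm.1 hc)))⟩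

end Pool.Agent.SPE
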