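import Pool.Agent.SPE.Pin

/-! Project SPE, module EAlg: the base order relative to pins. -/

set_option autoImplicit false

open Set

namespace Pool.Agent.SPE

open Pool.Agent.SOC Pool.Agent.SOD Pool.Agent.SOS Pool.Agent.SOP Pool.Agent.SOW Pool.Agent.SOE Pool.Agent.RUP

/-- the equations of a pin -/
def pinT (pn : List (ℕ × ℕ)) (a b c d : ℕ) : Bool :=
  decide ((a, b) ∈ pn) && decide (a ≠ b) && decide (c ≠ d) && decide (a ≠ c) && decide (a ≠ d) && decide (b ≠ c) && decide (b ≠ d)

/-- the linear system with the pins -/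
def systemP (M : List (List Bool)) (pn : List (ℕ × ℕ)) : List (List Bool) :=
  (List.range M.length).flatMap fun a => (List.range M.length).flatMap fun b =>
    (List.range M.length).flatMap fun c => (List.range M.length).flatMap fun d =>
      if (rigidB M a b c d || w4B M a b c d) || pinT pn a b c d then [eqOf M.length a b c d] else []

/-- the base order relative to the pins -/
def eOrderP (x : List (List Bool) × List (ℕ × ℕ)) : Option (List ℕ) :=
  (gauss (x.1.length * x.1.length) (systemP x.1 x.2)).map (orderOf x.1.length)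

/-- the pins as sets -/
def PS (M : List (List Bool)) (pn : List (ℕ × ℕ)) : Set (Set (Fin M.length)) :=
  {S | ∃ z a : Fin M.length, (z.val, a.val) ∈ pn ∧ z ≠ a ∧ S = {z, a}}

/-- the equations -/
def EqP (M : List (List Bool)) (pn : List (ℕ × ℕ)) (a b c d : Fin M.length) : Prop :=
  (Rigid (graphOf M) a b c d ∨ ∃ r, W4 (graphOf M) a b c d r) ∨ pinT pn a b c d = true

theorem pinT_iff {M : List (List Bool)} {pn : List (ℕ × ℕ)} {a b c d : Fin M.length} : pinT pn a b c d = true ↔
    (a.val, b.val) ∈ pn ∧ a ≠ b ∧ c ≠ d ∧ a ≠ c ∧ a ≠ d ∧ b ≠ c ∧ b ≠ d := by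
  unfold pinT
  simp only [Bool.and_eq_true, decide_eq_true_eq, and_assoc, ne_eq, Fin.ext_iff]

theorem eqP_ne {M : List (List Bool)} {pn : List (ℕ × ℕ)} {a b c d : Fin M.length} (h : EqP M pn a b c d) :
    a ≠ b ∧ c ≠ d ∧ a ≠ c ∧ a ≠ d ∧ b ≠ c ∧ b ≠ d := by
  rcases h with h | h
  · exact ealg_ne h
  · exact (pinT_iff.1 h).2

theorem mem_systemP {M : List (List Bool)} {pn : List (ℕ × ℕ)} {e : List Bool} : e ∈ systemP M pn ↔ ∃ a b c d : Fin M.length,
    EqP M pn a b c d ∧ e = eqOf M.length a b c d := by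
  unfold systemP
  simp only [List.mem_flatMap, List.mem_range]
  constructor
  · rintro ⟨a, ha, b, hb, c, hc, d, hd, h⟩
    split_ifs at h with hr
    · rw [List.mem_singleton] at h
      rw [Bool.or_eq_true, Bool.or_eq_true] at hr
      refine ⟨⟨a, ha⟩, ⟨b, hb⟩, ⟨c, hc⟩, ⟨d, hd⟩, ?_, h⟩
      rcases hr with (hr | hr) | hr
      · exact Or.inl (Or.inl (rigidB_iff.1 hr))
      · exact Or.inl (Or.inr ((w4B_iff (a := ⟨a, ha⟩) (b := ⟨b, hb⟩) (c := ⟨c, hc⟩) (d := ⟨d, hd⟩)).1 hr))
      · exact Or.inr hr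
    · exact absurd h (by simp)
  · rintro ⟨a, b, c, d, hr, h⟩
    refine ⟨a, a.2, b, b.2, c, c.2, d, d.2, ?_⟩
    have : ((rigidB M a b c d || w4B M a b c d) || pinT pn a b c d) = true := by
      rw [Bool.or_eq_true, Bool.or_eq_true]
      rcases hr with (hr | hr) | hr
      · exact Or.inl (Or.inl (rigidB_iff.2 hr))
      · exact Or.inl (Or.inr (w4B_iff.2 hr))
      · exact Or.inr hr
    rw [if_pos this, List.mem_singleton]
    exact h

theorem systemP_length {M : List (List Bool)} {pn : List (ℕ × ℕ)} : ∀ e ∈ systemP M pn, e.length = M.length * M.length + 1 := by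
  intro e he
  obtain ⟨a, b, c, d, _, rfl⟩ := mem_systemP.1 he
  exact eqOf_length _ _ _ _ _

theorem ewp_eq {M : List (List Bool)} {pn : List (ℕ × ℕ)} {s : List (Fin M.length)} (hs : EWP (graphOf M) (PS M pn) s)
    {a b c d : Fin M.length} (h : EqP M pn a b c d) : ¬ Cross s a b c d := by
  rcases h with (h | ⟨r, h⟩) | h
  · exact hs.ewo.wo a b c d h
  · exact hs.ewo.w4 h
  · obtain ⟨h1, h2, h3, h4, h5, h6, h7⟩ := pinT_iff.1 h
    have h8 := hs.pin {a, b} ⟨a, b, h1, h2, rfl⟩
    have h9 := h8 a (Or.inl rfl) b (Or.inr rfl) c (by rintro (e | e); exacts [h4 e.symm, h6 e.symm]) d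
      (by rintro (e | e); exacts [h5 e.symm, h7 e.symm])
    exact (not_cross_iff hs.ewo.enum h4 h5 h6 h7).2 h9

theorem eOrderP_none {M : List (List Bool)} {pn : List (ℕ × ℕ)} (h : eOrderP (M, pn) = none) (s : List (Fin M.length)) :
    ¬ EWP (graphOf M) (PS M pn) s := by
  intro hw
  have hs : IsEnum s := hw.ewo.enum
  unfold eOrderP at h
  dsimp only at h
  rw [Option.map_eq_none_iff] at h
  -- the solution given by s
  let x : List Bool := (List.range (M.length * M.length)).map (fun k =>
    if hk : k / M.length < M.length ∧ k % M.length < M.length then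
      decide (s.idxOf ⟨k / M.length, hk.1⟩ < s.idxOf ⟨k % M.length, hk.2⟩) else false)
  have hx : ∀ i j : Fin M.length, (i : ℕ) < j → x.getD (i * M.length + j) false =
      decide (s.idxOf i < s.idxOf j) := by
    intro i j hij
    have hn : 0 < M.length := by have := i.2; omega
    have hlt : (i : ℕ) * M.length + j < M.length * M.length := by
      have h1 := i.2
      have h2 := j.2
      calc (i : ℕ) * M.length + j < i * M.length + M.length := by omega
        _ = (i + 1) * M.length := by ring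
        _ ≤ M.length * M.length := Nat.mul_le_mul_right _ h1
    have e1 : ((i : ℕ) * M.length + j) / M.length = i := by
      rw [mul_comm, Nat.mul_add_div hn, Nat.div_eq_of_lt j.2, add_zero]
    have e2 : ((i : ℕ) * M.length + j) % M.length = j := by
      rw [mul_comm, Nat.mul_add_mod, Nat.mod_eq_of_lt j.2]
    rw [List.getD_eq_getElem _ _ (by simpa [x] using hlt)]
    simp only [x, List.getElem_map, List.getElem_range, e1, e2]
    rw [dif_pos ⟨i.2, j.2⟩]
  have hwz : ∀ i j : Fin M.length, i ≠ j → wZ M.length x i j = ordFn s i j := by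
    intro i j hij
    have hne := idx_ne hs hij
    unfold wZ wB ordFn
    by_cases h1 : (i : ℕ) < j
    · rw [if_pos h1, hx i j h1]
      unfold bz
      by_cases h2 : s.idxOf i < s.idxOf j
      · simp [h2]
      · simp [h2]
    · have h3 : (j : ℕ) < i := by
        have : (i : ℕ) ≠ j := fun e => hij (Fin.ext e)
        omega
      rw [if_neg h1, hx j i h3]
      unfold bz
      by_cases h2 : s.idxOf i < s.idxOf j
      · have h4 : ¬ s.idxOf j < s.idxOf i := by omega
        simp [h2, h4]
      · have h4 : s.idxOf j < s.idxOf i := by omega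
        simp [h2, h4]
  obtain ⟨e, he, hev⟩ := gauss_none systemP_length h x
  obtain ⟨a, b, c, d, hr, rfl⟩ := mem_systemP.1 he
  obtain ⟨hab, hcd, hac, had, hbc, hbd⟩ := eqP_ne hr
  have h5 : evalEq (M.length * M.length) x (eqOf M.length a b c d) = false := by
    rw [ealg_evalEq x hab hcd hac had hbc hbd]
    have hcr : ¬ Cross s a b c d := ewp_eq hw hr
    have := (not_cross_iff hs hac had hbc hbd).1 hcr
    unfold sep at this ⊢
    rw [hwz _ _ hac, hwz _ _ had, hwz _ _ hbc, hwz _ _ hbd]
    exact this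
  rw [h5] at hev
  exact absurd hev (by decide)

theorem eOrderP_some {M : List (List Bool)} {pn : List (ℕ × ℕ)} (hG : PrimeG (graphOf M)) (hc : PinC (graphOf M) (PS M pn)) {l : List ℕ}
    (h : eOrderP (M, pn) = some l) : ∃ s : List (Fin M.length), s.map Fin.val = l ∧ EWP (graphOf M) (PS M pn) s := by
  unfold eOrderP at h
  dsimp only at h
  rw [Option.map_eq_some_iff] at h
  obtain ⟨x, hx, hl⟩ := h
  have hall : ∀ a b c d : Fin M.length, EqP M pn a b c d → sep (wZ M.length x) a b c d = 0 := by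
    intro a b c d hr
    obtain ⟨hab, hcd, hac, had, hbc, hbd⟩ := eqP_ne hr
    rw [← ealg_evalEq x hab hcd hac had hbc hbd]
    exact gauss_some systemP_length hx _ (mem_systemP.2 ⟨a, b, c, d, hr, rfl⟩)
  have hsol : IsSol (graphOf M) (wZ M.length x) := fun a b c d hr => hall a b c d (Or.inl (Or.inl hr))
  have hsol4 : ∀ p p' q q' r, W4 (graphOf M) p p' q q' r → sep (wZ M.length x) p p' q q' = 0 :=
    fun a b c d r hr => hall a b c d (Or.inl (Or.inr ⟨r, hr⟩))
  have hpin : ∀ S ∈ PS M pn, IsSplit (wZ M.length x) S := by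
    rintro S ⟨z, a, h1, h2, rfl⟩ u hu u' hu' y hy y' hy'
    have y1 : z ≠ y := fun e => hy (Or.inl e.symm)
    have y2 : a ≠ y := fun e => hy (Or.inr e.symm)
    have y3 : z ≠ y' := fun e => hy' (Or.inl e.symm)
    have y4 : a ≠ y' := fun e => hy' (Or.inr e.symm)
    have key : sep (wZ M.length x) z a y y' = 0 := by
      by_cases e : y = y'
      · rw [e]
        exact sep_self_right _ _ _ _
      · exact hall z a y y' (Or.inr (pinT_iff.2 ⟨h1, h2, e, y1, y3, y2, y4⟩))
    rcases hu with rfl | rfl <;> rcases hu' with rfl | rfl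
    · exact sep_self_left _ _ _ _
    · exact key
    · rw [sep_swap_left]
      exact key
    · exact sep_self_left _ _ _ _
  have hF : Fam (graphOf M) (fun _ : Unit => wZ M.length x) :=
    ⟨fun _ => ⟨1, wZ_skew _ _⟩, fun _ => hsol, fun hh _ => hsol4 _ _ _ _ _ hh⟩
  have hfree := hc.hf _ _ hF (fun S hS _ => hpin S hS)
  have hsplit : ∀ a b c d : Fin M.length, (Rigid (graphOf M) a b c d ∨ ∃ r, W4 (graphOf M) a b c d r) →
      ∃ X, a ∈ X ∧ b ∈ X ∧ c ∉ X ∧ d ∉ X ∧ IsSplit (wZ M.length x) X := by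
    rintro a b c d (hr | ⟨r, hr⟩)
    · exact thmA hG.1.preconnected hsol hr
    · exact aplus2 hG (wZ_skew _ _) hsol hsol4 hfree hr
  by_cases h0 : M.length = 0
  · refine ⟨[], ?_, ⟨⟨List.nodup_nil, fun v => absurd v.2 (by omega)⟩, ?_, ?_⟩, ?_⟩
    · rw [← hl]
      unfold SOC.orderOf
      rw [if_pos h0]
      rfl
    · intro a
      exact absurd a.2 (by omega)
    · intro p
      exact absurd p.2 (by omega)
    · rintro S ⟨z, -⟩
      exact absurd z.2 (by omega)
  have hpos : 0 < M.length := Nat.pos_of_ne_zero h0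
  have hLn : ((List.range M.length).tail).Nodup := List.Nodup.sublist (List.tail_sublist _)
    List.nodup_range
  have hT : ∀ i ∈ (List.range M.length).tail, ∀ j ∈ (List.range M.length).tail, i ≠ j →
      tourB M.length x i j = !tourB M.length x j i := fun i _ j _ hij => tourB_skew x hij
  have hperm := modOrder_perm (tourB M.length x) hLn hT
  set m := modOrder (tourB M.length x) ((List.range M.length).tail) with hm
  have hl2 : l = 0 :: m := by
    rw [← hl]
    unfold SOC.orderOf
    rw [if_neg h0]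
  have hcons : List.range M.length = 0 :: (List.range M.length).tail := by
    obtain ⟨k, hk⟩ : ∃ k, M.length = k + 1 := ⟨M.length - 1, by omega⟩
    rw [hk, List.range_succ_eq_map]
    rfl
  have hperm2 : (0 :: m).Perm (List.range M.length) := by
    rw [hcons]
    exact List.Perm.cons 0 hperm
  have hlt : ∀ i ∈ (0 :: m), i < M.length := fun i hi => List.mem_range.1 (hperm2.mem_iff.1 hi)
  -- the list of elements of Fin
  let s : List (Fin M.length) := (0 :: m).pmap (fun i hi => ⟨i, hi⟩) hlt
  have hsmap : s.map Fin.val = 0 :: m := by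
    simp only [s, List.map_pmap]
    exact List.pmap_eq_map hlt |>.trans (List.map_id' _)
  let t : List (Fin M.length) := m.pmap (fun i hi => ⟨i, hi⟩)
    (fun i hi => hlt i (List.mem_cons_of_mem _ hi))
  have hst : s = ⟨0, hpos⟩ :: t := rfl
  have htmap : t.map Fin.val = m := by
    simp only [t, List.map_pmap]
    exact List.pmap_eq_map _ |>.trans (List.map_id' _)
  have hsnd : s.Nodup := by
    have : (s.map Fin.val).Nodup := by
      rw [hsmap]
      exact hperm2.nodup_iff.2 List.nodup_range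
    exact List.Nodup.of_map _ this
  have hsmem : ∀ v, v ∈ s := by
    intro v
    have h1 : (v : ℕ) ∈ s.map Fin.val := by
      rw [hsmap]
      exact hperm2.mem_iff.2 (List.mem_range.2 v.2)
    obtain ⟨u, hu, huv⟩ := List.mem_map.1 h1
    have : u = v := Fin.ext huv
    rw [← this]; exact hu
  have hs : IsEnum s := ⟨hsnd, hsmem⟩
  -- modules are convex
  have hconv : ∀ X : Set (Fin M.length), IsSplit (wZ M.length x) X → (⟨0, hpos⟩ : Fin _) ∉ X →
      SOC.Convex t X := by
    intro X hX hv
    have hsub : ∀ i ∈ {i : ℕ | ∃ h : i < M.length, (⟨i, h⟩ : Fin M.length) ∈ X},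
        i ∈ (List.range M.length).tail := by
      rintro i ⟨hi, hiX⟩
      have h1 : i ∈ List.range M.length := List.mem_range.2 hi
      rw [hcons] at h1
      rcases List.mem_cons.1 h1 with h2 | h2
      · subst h2
        exact absurd hiX hv
      · exact h2
    have h1 := modOrder_convex (tourB M.length x) hLn hT (module_of_split x hpos hX hv) hsub
    rw [← hm] at h1
    intro p hp r hr q hq h2 h3
    have h4 := h1 p ⟨p.2, hp⟩ r ⟨r.2, hr⟩ q (by rw [← htmap]; exact List.mem_map_of_mem hq)
      (by rw [← htmap, idxOf_map_val, idxOf_map_val]; exact h2)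
      (by rw [← htmap, idxOf_map_val, idxOf_map_val]; exact h3)
    obtain ⟨_, h5⟩ := h4
    exact h5
  have hint : ∀ X : Set (Fin M.length), IsSplit (wZ M.length x) X → ∀ a b c d : Fin M.length, a ∈ X → b ∈ X → c ∉ X → d ∉ X →
      ¬ Cross s a b c d := by
    intro X h5 a b c d h1 h2 h3 h4
    have ne : ∀ u v, u ∈ X → v ∉ X → u ≠ v := fun u v hu hv e => hv (e ▸ hu)
    rw [hst] at hs ⊢
    by_cases hv : (⟨0, hpos⟩ : Fin M.length) ∈ X
    · rw [cross_comm hs (ne a c h1 h3) (ne a d h1 h4) (ne b c h2 h3) (ne b d h2 h4)]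
      exact not_cross_of_convex hs (hconv Xᶜ (h5.compl (wZ_skew _ _)) (fun h => h hv))
        (fun h => h hv) h3 h4 (fun h => h h1) (fun h => h h2)
    · exact not_cross_of_convex hs (hconv X h5 hv) hv h1 h2 h3 h4
  have hnc : ∀ a b c d : Fin M.length, (Rigid (graphOf M) a b c d ∨ ∃ r, W4 (graphOf M) a b c d r) →
      ¬ Cross s a b c d := by
    intro a b c d hr
    obtain ⟨X, h1, h2, h3, h4, h5⟩ := hsplit a b c d hr
    exact hint X h5 a b c d h1 h2 h3 h4
  refine ⟨s, by rw [hsmap, hl2], ⟨hs, fun a b c d hr => hnc a b c d (Or.inl hr), fun hr => hnc _ _ _ _ (Or.inr ⟨_, hr⟩)⟩, ?_⟩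
  intro S hS u hu u' hu' y hy y' hy'
  have ne : ∀ u v, u ∈ S → v ∉ S → u ≠ v := fun u v hu hv e => hv (e ▸ hu)
  exact (not_cross_iff hs (ne u y hu hy) (ne u y' hu hy') (ne u' y hu' hy) (ne u' y' hu' hy')).1
    (hint S (hpin S hS) u u' y y' hu hu' hy hy')

end Pool.Agent.SPE
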