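import Pool.Agent.SPE.EAlg

/-! Project SPE, module EPoly: the base order relative to pins is computable in polynomial time. -/

set_option autoImplicit false

open Set

namespace Pool.Agent.SPE

open Pool.Agent.SOC Pool.Agent.SOD Pool.Agent.SOS Pool.Agent.SOP Pool.Agent.SOW Pool.Agent.SOE Pool.Agent.RUP

open NPC FP

theorem poly_pinT {α : Type} [Code α] {pn : α → List (ℕ × ℕ)} {a b c d : α → ℕ} (hp : Poly pn) (ha : Poly a) (hb : Poly b) (hc : Poly c)
    (hd : Poly d) : Poly (fun x => pinT (pn x) (a x) (b x) (c x) (d x)) := by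
  unfold pinT
  have h1 : Poly (fun x => decide ((a x, b x) ∈ pn x)) :=
    (Poly.decideMem (Poly.pair ha hb) hp).congr (fun x => by rw [decide_eq_decide])
  fun_prop

theorem poly_systemP : Poly (fun x : List (List Bool) × List (ℕ × ℕ) => systemP x.1 x.2) := by
  unfold systemP
  have hr : ∀ {β : Type} [Code β] {M : β → List (List Bool)}, Poly M → Poly (fun p => List.range (M p).length) :=
    fun h => Poly.range (Poly.length h) (PolyBdd.length h)
  refine Poly.flatMap (hr (by fun_prop)) ?_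
  refine Poly.flatMap (hr (by fun_prop)) ?_
  refine Poly.flatMap (hr (by fun_prop)) ?_
  refine Poly.flatMap (hr (by fun_prop)) ?_
  have h1 : Poly (fun p : ((((List (List Bool) × List (ℕ × ℕ)) × ℕ) × ℕ) × ℕ) × ℕ =>
      rigidB p.1.1.1.1.1 p.1.1.1.2 p.1.1.2 p.1.2 p.2) :=
    AlgoPoly_rigidB (by fun_prop) (by fun_prop) (by fun_prop) (by fun_prop) (by fun_prop)
  have h3 : Poly (fun p : ((((List (List Bool) × List (ℕ × ℕ)) × ℕ) × ℕ) × ℕ) × ℕ =>
      w4B p.1.1.1.1.1 p.1.1.1.2 p.1.1.2 p.1.2 p.2) :=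
    epoly_w4B (by fun_prop) (by fun_prop) (by fun_prop) (by fun_prop) (by fun_prop)
  have h4 : Poly (fun p : ((((List (List Bool) × List (ℕ × ℕ)) × ℕ) × ℕ) × ℕ) × ℕ =>
      pinT p.1.1.1.1.2 p.1.1.1.2 p.1.1.2 p.1.2 p.2) :=
    poly_pinT (by fun_prop) (by fun_prop) (by fun_prop) (by fun_prop) (by fun_prop)
  have h2 : Poly (fun p : ((((List (List Bool) × List (ℕ × ℕ)) × ℕ) × ℕ) × ℕ) × ℕ =>
      eqOf p.1.1.1.1.1.length p.1.1.1.2 p.1.1.2 p.1.2 p.2) :=
    AlgoPoly_eqOf (by fun_prop) (PolyBdd.length (by fun_prop)) (by fun_prop) (by fun_prop) (by fun_prop)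
      (by fun_prop)
  refine Poly.ite (Poly.pred (Poly.or (Poly.or h1 h3) h4)) ?_ (FP.Poly.const [])
  exact Poly.cons h2 (FP.Poly.const [])

theorem poly_eOrderP : Poly eOrderP := by
  unfold eOrderP
  have h1 : Poly (fun x : List (List Bool) × List (ℕ × ℕ) => gauss (x.1.length * x.1.length) (systemP x.1 x.2)) :=
    poly_gauss (by fun_prop) ((PolyBdd.length (by fun_prop)).mul (PolyBdd.length (by fun_prop))) poly_systemP
  have h2 : Poly (fun p : (List (List Bool) × List (ℕ × ℕ)) × List Bool => orderOf p.1.1.length p.2) := by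
    have h3 := AlgoPoly_orderOf
    exact h3.comp (f := fun p : (List (List Bool) × List (ℕ × ℕ)) × List Bool => (p.1.1, p.2)) (by fun_prop)
  exact Poly.optionMap h1 h2

end Pool.Agent.SPE
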