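import Pool.Agent.SPE.Uniq
import Pool.Agent.SPE.NodeC

/-! Project SPE, module NodeT: nodes with at least seven parts. -/

set_option autoImplicit false

open Set

namespace Pool.Agent.SPE

open Pool.Agent.SOC Pool.Agent.SOD Pool.Agent.SOS Pool.Agent.SOP Pool.Agent.SOW Pool.Agent.SOE Pool.Agent.RUP

variable {V : Type} [DecidableEq V] {G : SimpleGraph V} {P : Set (Set V)} {s s' : List V} {T : V → V → V → V → Prop} {π : V → Set V} {s₀ : List V}

theorem node_rigidP [Finite V] (hG : PrimeG G) (hc : PinC G P) (hs : IsEnum s) (hT : QT G (Cross s) T) (hpn : ∀ S ∈ P, CI s S) (hπ : NodeP G P π)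
    {v : Fin 7 → V} (hv : ∀ i j, i ≠ j → π (v i) ≠ π (v j)) {X : Set V} (hX : EPP G P X)
    (h2 : ∃ a b, a ∈ X ∧ b ∈ X ∧ π a ≠ π b) (h2' : ∃ a b, a ∉ X ∧ b ∉ X ∧ π a ≠ π b) : False := by
  have hE : EWP G P s := ⟨ewo_of_qt hs hT, hpn⟩
  have hall := node_completeP hG hc hE hπ hX h2 h2'
  have hH : Hub G π := by
    intro a b c d hr
    by_contra hcon
    push Not at hcon
    obtain ⟨J, hJ⟩ := nodet_spl hcon.1 hcon.2
    exact corner_spl (hall J).epc.cut hr hJ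
  have hN : NW G π := by
    intro p p' q q' r hw hp
    by_contra hq
    obtain ⟨J, hJ⟩ := nodet_spl hp hq
    exact (hall J).epc.w4 hw hJ
  have hci : ∀ u, CI s {w | π w = π u} := by
    intro u
    rcases hπ.part u with h | h
    · intro x hx x' hx' y hy y' hy'
      rw [h x hx, h x' hx']
      exact sep_self_left _ _ _ _
    · exact strp_ci hG hc hE h
  exact seven_false hG hH hN ⟨hs, hT⟩ hci hv

theorem node_rotP [Finite V] (hG : PrimeG G) (hc : PinC G P) (hs : IsEnum s) (hT : QT G (Cross s) T) (hpn : ∀ S ∈ P, CI s S) (h0 : EWP G P s₀) (hπ : NodeP G P π)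
    {v : Fin 7 → V} (hv : ∀ i j, i ≠ j → π (v i) ≠ π (v j)) {a b c d : V} (ab : π a ≠ π b) (ac : π a ≠ π c) (ad : π a ≠ π d)
    (bc : π b ≠ π c) (bd : π b ≠ π d) (cd : π c ≠ π d) : Cross s a b c d ↔ Cross s₀ a b c d := by
  by_contra hne
  have ne : ∀ {x y : V}, π x ≠ π y → x ≠ y := fun h e => h (e ▸ rfl)
  obtain ⟨X, hX, hsp⟩ := uniqP hG hc hs hT hpn h0 (ne ac) (ne ad) (ne bc) (ne bd) hne
  obtain ⟨h1, h2⟩ := hsp
  have key : ∀ {x y z w : V}, x ∈ X → y ∈ X → z ∉ X → w ∉ X → π x ≠ π y → π z ≠ π w → False :=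
    fun hx hy hz hw h3 h4 => node_rigidP hG hc hs hT hpn hπ hv hX ⟨_, _, hx, hy, h3⟩ ⟨_, _, hz, hw, h4⟩
  by_cases ha : a ∈ X <;> by_cases hb : b ∈ X
  · exact h1 ⟨fun _ => hb, fun _ => ha⟩
  · by_cases hc' : c ∈ X <;> by_cases hd : d ∈ X
    · exact h2 ⟨fun _ => hd, fun _ => hc'⟩
    · exact key ha hc' hb hd ac bd
    · exact key ha hd hb hc' ad bc
    · exact h2 ⟨fun h => absurd h hc', fun h => absurd h hd⟩
  · by_cases hc' : c ∈ X <;> by_cases hd : d ∈ X
    · exact h2 ⟨fun _ => hd, fun _ => hc'⟩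
    · exact key hb hc' ha hd bc ad
    · exact key hb hd ha hc' bd ac
    · exact h2 ⟨fun h => absurd h hc', fun h => absurd h hd⟩
  · exact h1 ⟨fun h => absurd h ha, fun h => absurd h hb⟩


end Pool.Agent.SPE
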