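import Pool.Agent.SPE.NodeT
import Pool.Agent.SOE.Hf

/-! Project SPE, module Pin: pins `{z, a}` for all centres `z`. -/

set_option autoImplicit false

open Set

namespace Pool.Agent.SPE

open Pool.Agent.SOC Pool.Agent.SOD Pool.Agent.SOS Pool.Agent.SOP Pool.Agent.SOW Pool.Agent.SOE Pool.Agent.RUP

variable {V : Type} {G : SimpleGraph V}

/-- a free centre at a prime partition which separates the pairs of a W4 is a centre -/
theorem centre_of_free {π : V → Set V} (hH : Hub G π) {z : V} (hz : FreeC G π z) {p p' q q' r : V}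
    (h : W4 G p p' q q' r) (h1 : π p ≠ π p') (h2 : π q ≠ π q') : ∃ L, Centre G z L := by
  have hatt : ∀ v x y, G.Adj v x → G.Adj v y → π x ≠ π y → Att G π v := by
    intro v x y hx hy hxy
    by_cases he : π x = π v
    · exact ⟨y, hy, fun e => hxy (he.trans e.symm)⟩
    · exact ⟨x, hx, he⟩
  have ap := hatt p q q' h.pq h.pq' h2
  have ap' := hatt p' q q' h.p'q h.p'q' h2
  have aq := hatt q p p' h.pq.symm h.p'q.symm h1
  have aq' := hatt q' p p' h.pq'.symm h.p'q'.symm h1
  have zp : p ≠ z := by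
    rintro rfl
    exact h.n1 (hz.2 p' ap' (Ne.symm h.d1))
  have zp' : p' ≠ z := by
    rintro rfl
    exact h.n1 (hz.2 p ap h.d1).symm
  have zq : q ≠ z := by
    rintro rfl
    exact h.n2 (hz.2 q' aq' (Ne.symm h.d2))
  have zq' : q' ≠ z := by
    rintro rfl
    exact h.n2 (hz.2 q aq h.d2).symm
  by_cases hA : π p' ≠ π q ∧ π p ≠ π q'
  · refine ⟨{v | π v = π p ∨ π v = π q}, Hf_core hH hz h _ ?_ (Or.inl rfl) ?_ ?_ zp' zq zq' ?_⟩
    · intro u v huv
      show (π u = π p ∨ π u = π q) ↔ (π v = π p ∨ π v = π q)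
      rw [huv]
    · rintro (e | e)
      · exact h1 e.symm
      · exact hA.1 e
    · rintro (e | e)
      · exact zp (hz.1 p e.symm)
      · exact zq (hz.1 q e.symm)
    · intro e
      rcases e.1 (Or.inr rfl) with e | e
      · exact hA.2 e.symm
      · exact h2 e.symm
  · have hB : π p' = π q ∨ π p = π q' := by
      by_contra hno
      push Not at hno
      exact hA hno
    have b1 : π p' ≠ π q' := by
      rcases hB with e | e
      · rw [e]
        exact h2
      · rw [← e]
        exact fun e' => h1 e'.symm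
    have b2 : π q ≠ π p := by
      rcases hB with e | e
      · rw [← e]
        exact fun e' => h1 e'.symm
      · rw [e]
        exact h2
    refine ⟨{v | π v = π p ∨ π v = π q'}, Hf_core hH hz h _ ?_ (Or.inl rfl) ?_ ?_ zp' zq zq' ?_⟩
    · intro u v huv
      show (π u = π p ∨ π u = π q') ↔ (π v = π p ∨ π v = π q')
      rw [huv]
    · rintro (e | e)
      · exact h1 e.symm
      · exact b1 e
    · rintro (e | e)
      · exact zp (hz.1 p e.symm)
      · exact zq' (hz.1 q' e.symm)
    · intro e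
      rcases e.2 (Or.inr rfl) with e | e
      · exact b2 e
      · exact h2 e

/-- a common split of two elements is in one part of a prime partition -/
theorem pair_part {ι : Type} {w : ι → V → V → ZMod 2} {π : V → Set V} (hπ : PP w π) {z a : V} (h : CSpl w {z, a}) : π z = π a := by
  rcases hπ.prime _ h with ⟨v, hv⟩ | ⟨v, hv⟩
  · exact (hv z (Or.inl rfl)).trans (hv a (Or.inr rfl)).symm
  · exfalso
    have hk : ∀ x, π x = π z ∨ π x = π a ∨ π x = π v := by
      intro x
      by_cases hx : x ∈ ({z, a} : Set V)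
      · rcases hx with rfl | rfl
        · exact Or.inl rfl
        · exact Or.inr (Or.inl rfl)
      · exact Or.inr (Or.inr (hv x hx))
    obtain ⟨a0, b0, c0, d0, n1, n2, n3, n4, n5, n6⟩ := hπ.four
    rcases hk a0 with e1 | e1 | e1 <;> rcases hk b0 with e2 | e2 | e2 <;> rcases hk c0 with e3 | e3 | e3 <;>
      rcases hk d0 with e4 | e4 | e4 <;>
      first
      | exact n1 (e1.trans e2.symm)
      | exact n2 (e1.trans e3.symm)
      | exact n3 (e1.trans e4.symm)
      | exact n4 (e2.trans e3.symm)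
      | exact n5 (e2.trans e4.symm)
      | exact n6 (e3.trans e4.symm)

section
variable [DecidableEq V]

/-- two neighbours are not crossed -/
theorem pair_nc {s : List V} {z a : V} (h : CI s {z, a}) {y y' : V} (h1 : y ≠ z) (h2 : y ≠ a) (h3 : y' ≠ z) (h4 : y' ≠ a)
    (hs : IsEnum s) : ¬ CrD s z a y y' := by
  rintro ⟨⟨-, k2, k3, k4, k5, -⟩, hc⟩
  have e := h z (Or.inl rfl) a (Or.inr rfl) y (by rintro (e | e); exacts [h1 e, h2 e]) y' (by rintro (e | e); exacts [h3 e, h4 e])
  exact (not_cross_iff hs k2 k3 k4 k5).2 e hc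

theorem crD_right {s : List V} (hs : IsEnum s) {a b c d : V} (h : CrD s a b c d) : CrD s a b d c :=
  (crD_sepr hs).comm ((crD_sepr hs).swap ((crD_sepr hs).comm h))

theorem pinC_pairs [Finite V] (hG : PrimeG G) {P : Set (Set V)}
    (hP : ∀ z L, Centre G z L → ∃ a, a ≠ z ∧ ({z, a} : Set V) ∈ P) : PinC G P where
  hf := by
    intro ι w hF hS π hπ p p' q q' r hw h1 h2 z hz
    obtain ⟨L, hL⟩ := centre_of_free (hub_of_pp hG.1.preconnected hF.sol hπ) hz hw h1 h2
    obtain ⟨a, ha, haP⟩ := hP z L hL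
    exact ha (hz.1 a (pair_part hπ (hS _ haP)).symm)
  sw := by
    intro s s' T p q P₁ Q r z L h hs hs' hz hL
    obtain ⟨a, ha, haP⟩ := hP z L hL
    have c := hs.pin _ haP
    have c' := hs'.pin _ haP
    have S := crD_sepr h.en
    have S' := crD_sepr h.ew.enum
    obtain ⟨z1, z2⟩ := hz
    have hd := z1.1
    have hd' := z2.1
    have hw := h.w
    -- z is none of the four
    have zq : z ≠ q := fun e => hd.2.1 e.symm
    have zQ : z ≠ Q := fun e => hd.2.2.2.1 e.symm
    have zp : z ≠ p := hd.2.2.2.2.2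
    have zP : z ≠ P₁ := fun e => hd'.2.2.2.1 e.symm
    have qQ : q ≠ Q := hd.1
    have qp : q ≠ p := hd.2.2.1
    have Qp : Q ≠ p := hd.2.2.2.2.1
    have pP : p ≠ P₁ := hd'.1
    have Pq : P₁ ≠ q := hd'.2.2.2.2.1
    have PQ : P₁ ≠ Q := hw.p'q'.ne
    by_cases a1 : a = p
    · subst a1
      exact pair_nc c zq.symm qp zQ.symm Qp h.en (S.comm z1)
    by_cases a2 : a = P₁
    · subst a2
      rcases S.add2 z1 (e := a) pP zP Pq.symm PQ.symm with k | k
      · exact hs.ewo.w4 hw (S.comm k).2
      · exact pair_nc c zq.symm Pq.symm zQ.symm PQ.symm h.en (S.comm k)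
    by_cases a3 : a = q
    · subst a3
      exact pair_nc c' zp.symm qp.symm zP.symm Pq h.ew.enum (S'.comm z2)
    by_cases a4 : a = Q
    · subst a4
      rcases S'.add2 z2 (e := a) qQ zQ Qp.symm PQ with k | k
      · exact hs'.ewo.w4 hw k.2
      · exact pair_nc c' zp.symm Qp.symm zP.symm PQ h.ew.enum (S'.comm k)
    have k1 : CrD s q Q a p := by
      rcases S.add2 z1 (e := a) (fun e => a1 e.symm) (fun e => ha e.symm) (fun e => a3 e.symm) (fun e => a4 e.symm) with k | k
      · exact crD_right h.en k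
      · exact (pair_nc c zq.symm (fun e => a3 e.symm) zQ.symm (fun e => a4 e.symm) h.en (S.comm k)).elim
    have k2 : CrD s' p P₁ a q := by
      rcases S'.add2 z2 (e := a) (fun e => a3 e.symm) (fun e => ha e.symm) (fun e => a1 e.symm) (fun e => a2 e.symm) with k | k
      · exact crD_right h.ew.enum k
      · exact (pair_nc c' zp.symm (fun e => a1 e.symm) zP.symm (fun e => a2 e.symm) h.ew.enum (S'.comm k)).elim
    exact ha (uniqR hG h ⟨z1, z2⟩ ⟨k1, k2⟩).1.symm

end

end Pool.Agent.SPE
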