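import Pool.Agent.SPE.AllE
import Pool.Agent.SPE.Blocks

/-! Project SPE, module Uniq: the uniqueness theorem relative to the pins. -/

set_option autoImplicit false

open Set

namespace Pool.Agent.SPE

open Pool.Agent.SOC Pool.Agent.SOD Pool.Agent.SOS Pool.Agent.SOP Pool.Agent.SOW Pool.Agent.SOE Pool.Agent.RUP

variable {V : Type} [DecidableEq V] {G : SimpleGraph V} {P : Set (Set V)} {s s' : List V} {T : V → V → V → V → Prop} {p q Q r : V}

theorem uniq0P [Finite V] (hG : PrimeG G) (hc : PinC G P) (hs : IsEnum s) (hT : QT G (Cross s) T) (hpn : ∀ S ∈ P, CI s S) (hs' : EWP G P s')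
    (hpp : ∀ π : V → Set V, ¬ PP (pairF s s') π) {a b c d : V} (h1 : a ≠ c) (h2 : a ≠ d) (h3 : b ≠ c) (h4 : b ≠ d)
    (hne : ¬ (Cross s a b c d ↔ Cross s' a b c d)) : ∃ X, EPP G P X ∧ Spl X a b c d := by
  obtain ⟨L, hM⟩ := min_exists (rep_exists hs hs'.ewo.enum hpp)
  by_contra hcon
  push Not at hcon
  have hall := all_epcP hG hc hs hT hpn hs' hM
  have hz : (L.map (fun X => spv X a b c d)).sum = 0 := by
    apply List.sum_eq_zero
    intro x hx
    obtain ⟨X, hX, rfl⟩ := List.mem_map.1 hx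
    unfold spv
    rw [if_neg (hcon X (hall X hX))]
  have he := hM.rep.eq a b c d h1 h2 h3 h4
  rw [hz, add_zero] at he
  apply hne
  rw [cross_iff_sep hs h1 h2 h3 h4, cross_iff_sep hs'.ewo.enum h1 h2 h3 h4, he]

theorem uniq_stepP [Finite V] (hG : PrimeG G) (hc : PinC G P) (hs : IsEnum s) (hT : QT G (Cross s) T) (hpn : ∀ S ∈ P, CI s S) (hs' : EWP G P s')
    {a b c d : V} (h1 : a ≠ c) (h2 : a ≠ d) (h3 : b ≠ c) (h4 : b ≠ d)
    (hne : ¬ (Cross s a b c d ↔ Cross s' a b c d)) (hno : ∀ X, EPP G P X → ¬ Spl X a b c d) :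
    ∃ s₃, EWP G P s₃ ∧ sep (ordFn s₃) a b c d = sep (ordFn s') a b c d ∧
      {X | CI s X ∧ CI s' X}.ncard < {X | CI s X ∧ CI s₃ X}.ncard := by
  by_cases hpp : ∀ π : V → Set V, ¬ PP (pairF s s') π
  · obtain ⟨X, hX, hsp⟩ := uniq0P hG hc hs hT hpn hs' hpp h1 h2 h3 h4 hne
    exact (hno X hX hsp).elim
  push Not at hpp
  obtain ⟨π, hπ⟩ := hpp
  have hse : EWO G s := ewo_of_qt hs hT
  have hFam : Fam G (pairF s s') := pairF_fam hse hs'.ewo
  have hHub : Hub G π := hub_of_pp hG.1.preconnected hFam.sol hπ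
  have hPI : ∀ S ∈ P, CI s S ∧ CI s' S := fun S hS => ⟨hpn S hS, hs'.pin S hS⟩
  have hfree : HFree G (pairF s s') := hc.hf _ _ hFam (fun S hS => pairF_cspl.2 (hPI S hS))
  have hun : ∀ U : Set V, (∀ u v, π u = π v → u ∈ U → v ∈ U) → EPP G P U := by
    intro U hU
    refine ⟨⟨?_, ?_⟩, ?_⟩
    · intro x hx x' hx' y hy y' hy' hr
      rcases hHub _ _ _ _ hr with e | e
      · exact hy (hU x y e hx)
      · exact hy' (hU x' y' e hx')
    · intro p p' q q' r hw hsp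
      refine no_w42 hG hFam hfree hπ hw (fun e => ?_) (fun e => ?_)
      · exact hsp.1 ⟨hU _ _ e, hU _ _ e.symm⟩
      · exact hsp.2 ⟨hU _ _ e, hU _ _ e.symm⟩
    · rintro S hS ⟨⟨p1, a1, b1⟩, ⟨p2, a2, b2⟩, ⟨p3, a3, b3⟩, ⟨p4, a4, b4⟩⟩
      rcases hπ.prime S (pairF_cspl.2 (hPI S hS)) with ⟨v, hv⟩ | ⟨v, hv⟩
      · exact a3 (hU p1 p3 ((hv p1 b1).trans (hv p3 b3).symm) a1)
      · exact a4 (hU p2 p4 ((hv p2 b2).trans (hv p4 b4).symm) a2)
  obtain ⟨a1, c1, hac, hci, hnci⟩ := adj_parts hs hs'.ewo.enum hπ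
  obtain ⟨X, hXdef⟩ : ∃ X : Set V, X = {v | π v = π a1 ∨ π v = π c1} := ⟨_, rfl⟩
  rw [← hXdef] at hci hnci
  have hXm : ∀ v, v ∈ X ↔ π v = π a1 ∨ π v = π c1 := fun v => by rw [hXdef]; rfl
  have hXu : ∀ u v, π u = π v → u ∈ X → v ∈ X := by
    intro u v huv hu
    rw [hXm] at hu ⊢
    exact hu.imp (fun e => huv.symm.trans e) (fun e => huv.symm.trans e)
  have hXE : EPP G P X := hun X hXu
  have hXn : Nontriv X := by
    refine ⟨⟨a1, (hXm _).2 (Or.inl rfl), c1, (hXm _).2 (Or.inr rfl), fun e => hac (e ▸ rfl)⟩, ?_⟩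
    by_contra hcon
    push Not at hcon
    obtain ⟨a0, b0, c0, d0, n1, n2, n3, n4, n5, n6⟩ := hπ.four
    have hx : ∀ x ∉ X, ∀ y ∉ X, π x = π y := fun x hx y hy => congrArg π (hcon x hx y hy)
    by_cases k : ∃ v, v ∉ X
    · obtain ⟨v, hv⟩ := k
      have h : ∀ x, π x = π a1 ∨ π x = π c1 ∨ π x = π v := by
        intro x
        by_cases hxX : x ∈ X
        · rcases (hXm x).1 hxX with hx | hx
          · exact Or.inl hx
          · exact Or.inr (Or.inl hx)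
        · exact Or.inr (Or.inr (hx x hxX v hv))
      rcases h a0 with e1 | e1 | e1 <;> rcases h b0 with e2 | e2 | e2 <;> rcases h c0 with e3 | e3 | e3 <;> rcases h d0 with e4 | e4 | e4 <;>
        first
        | exact n1 (e1.trans e2.symm)
        | exact n2 (e1.trans e3.symm)
        | exact n3 (e1.trans e4.symm)
        | exact n4 (e2.trans e3.symm)
        | exact n5 (e2.trans e4.symm)
        | exact n6 (e3.trans e4.symm)
    · push Not at k
      rcases (hXm _).1 (k a0) with e1 | e1 <;> rcases (hXm _).1 (k b0) with e2 | e2 <;> rcases (hXm _).1 (k c0) with e3 | e3 <;>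
        first
        | exact n1 (e1.trans e2.symm)
        | exact n2 (e1.trans e3.symm)
        | exact n4 (e2.trans e3.symm)
  obtain ⟨s₃, hs3, hci3, hY3, hsep3⟩ := gathP hG hc hs' hXE hXn
  refine ⟨s₃, hs3, ?_, ?_⟩
  · exact hsep3 a b c d h1 h2 h3 h4 (blk_or hs'.ewo.enum (fun U hU => hno U (epp_blocks hG hc hs' hXE hXn hU)))
  · refine Set.ncard_lt_ncard ⟨?_, fun hsub => ?_⟩ (Set.toFinite _)
    · rintro Y ⟨hY, hY'⟩
      refine ⟨hY, hY3 Y hY' ?_⟩
      rintro ⟨⟨p1, a1, b1⟩, ⟨p2, a2, b2⟩, ⟨p3, a3, b3⟩, ⟨p4, a4, b4⟩⟩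
      rcases hπ.prime Y (pairF_cspl.2 ⟨hY, hY'⟩) with ⟨v, hv⟩ | ⟨v, hv⟩
      · exact a3 (hXu p1 p3 ((hv p1 b1).trans (hv p3 b3).symm) a1)
      · exact a4 (hXu p2 p4 ((hv p2 b2).trans (hv p4 b4).symm) a2)
    · exact hnci (hsub ⟨hci, hci3⟩).2

theorem uniqP [Finite V] (hG : PrimeG G) (hc : PinC G P) (hs : IsEnum s) (hT : QT G (Cross s) T) (hpn : ∀ S ∈ P, CI s S) (hs' : EWP G P s')
    {a b c d : V} (h1 : a ≠ c) (h2 : a ≠ d) (h3 : b ≠ c) (h4 : b ≠ d)
    (hne : ¬ (Cross s a b c d ↔ Cross s' a b c d)) : ∃ X, EPP G P X ∧ Spl X a b c d := by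
  by_contra hcon
  push Not at hcon
  have key : ∀ n, ∀ s'', EWP G P s'' → sep (ordFn s'') a b c d = sep (ordFn s') a b c d →
      Nat.card (Set V) < {X | CI s X ∧ CI s'' X}.ncard + n → False := by
    intro n
    induction n with
    | zero =>
      intro s'' _ _ hlt
      have hle := Set.ncard_le_card {X : Set V | CI s X ∧ CI s'' X}
      omega
    | succ n ih =>
      intro s'' hs'' he hlt
      have hne' : ¬ (Cross s a b c d ↔ Cross s'' a b c d) := by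
        rw [cross_iff_sep hs h1 h2 h3 h4, cross_iff_sep hs''.ewo.enum h1 h2 h3 h4, he]
        rw [cross_iff_sep hs h1 h2 h3 h4, cross_iff_sep hs'.ewo.enum h1 h2 h3 h4] at hne
        exact hne
      obtain ⟨s₃, hs3, he3, hlt3⟩ := uniq_stepP hG hc hs hT hpn hs'' h1 h2 h3 h4 hne' hcon
      exact ih s₃ hs3 (he3.trans he) (by omega)
  exact key (Nat.card (Set V) + 1) s' hs' rfl (by omega)

end Pool.Agent.SPE
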